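import Pool.Agent.K3h53.UG.Stm5

/-! # UG6 project (helper53, MP_209724_lc): bricks GEN6, DOM6 and SOL6 (helper17) -/

set_option autoImplicit false

namespace Pool.Agent.K3h17.UG6

open MvPolynomial Filter Topology Metric Set Pool.Agent.K3h22.EX Pool.Agent.K3h53.UG

theorem t_GEN6 : S_GEN6 := by
  intro r U hU hne D
  classical
  induction D using Finset.induction_on with
  | empty =>
    intro _
    obtain ⟨ρ, hρ⟩ := hne
    obtain ⟨ε, hε, hb⟩ := Metric.isOpen_iff.1 hU ρ hρ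
    refine ⟨ρ, ε / 2, 1, by positivity, one_pos, fun ρ' h => hb ?_, by simp⟩
    rw [mem_ball, dist_pi_lt_iff hε]
    intro b
    rw [Real.dist_eq]
    linarith [h b]
  | insert v D hv ih =>
    intro hD
    obtain ⟨ρ, δ, κ, hδ, hκ, hU', hD'⟩ := ih fun w hw => hD w (Finset.mem_insert_of_mem hw)
    have hv0 : v ≠ 0 := hD v (Finset.mem_insert_self _ _)
    obtain ⟨ρ₁, h1, h2⟩ : ∃ ρ₁ : Fin r → ℝ, (∀ b, |ρ₁ b - ρ b| ≤ δ / 2) ∧
        ∑ b, v b * ρ₁ b ≠ 0 := by
      by_cases h0 : ∑ b, v b * ρ b = 0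
      · have hn : 0 < ‖v‖ := norm_pos_iff.2 hv0
        refine ⟨fun b => ρ b + δ / 2 / ‖v‖ * v b, fun b => ?_, ?_⟩
        · rw [add_sub_cancel_left, abs_mul, abs_of_pos (by positivity : 0 < δ / 2 / ‖v‖)]
          have h3 : |v b| ≤ ‖v‖ := norm_le_pi_norm v b
          calc δ / 2 / ‖v‖ * |v b| ≤ δ / 2 / ‖v‖ * ‖v‖ :=
                mul_le_mul_of_nonneg_left h3 (by positivity)
            _ = δ / 2 := by field_simp
        · have h3 : ∑ b, v b * (ρ b + δ / 2 / ‖v‖ * v b) =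
              δ / 2 / ‖v‖ * ∑ b, v b * v b := by
            rw [Finset.mul_sum, ← zero_add (∑ b, δ / 2 / ‖v‖ * (v b * v b)), ← h0,
              ← Finset.sum_add_distrib]
            refine Finset.sum_congr rfl fun b _ => ?_
            ring
          rw [h3]
          obtain ⟨b₀, hb₀⟩ : ∃ b, v b ≠ 0 := by
            by_contra hcon
            push Not at hcon
            exact hv0 (funext hcon)
          have h4 : 0 < ∑ b, v b * v b :=
            Finset.sum_pos' (fun b _ => mul_self_nonneg _)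
              ⟨b₀, Finset.mem_univ _, mul_self_pos.2 hb₀⟩
          positivity
      · exact ⟨ρ, fun b => by rw [sub_self, abs_zero]; positivity, h0⟩
    set A : ℝ := ∑ b, |v b| with hA
    have hA0 : 0 ≤ A := Finset.sum_nonneg fun b _ => abs_nonneg _
    set a : ℝ := |∑ b, v b * ρ₁ b| with ha
    have ha0 : 0 < a := abs_pos.2 h2
    set δ₁ : ℝ := min (δ / 2) (a / 2 / (A + 1)) with hδ₁
    have hδ₁0 : 0 < δ₁ := lt_min (by positivity) (by positivity)
    have hδA : A * δ₁ ≤ a / 2 := by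
      have h3 : δ₁ ≤ a / 2 / (A + 1) := min_le_right _ _
      rw [le_div_iff₀ (by positivity)] at h3
      nlinarith
    have hnear : ∀ ρ' : Fin r → ℝ, (∀ b, |ρ' b - ρ₁ b| ≤ δ₁) → ∀ b, |ρ' b - ρ b| ≤ δ := by
      intro ρ' h b
      have h3 := h b
      have h4 := h1 b
      have h5 : δ₁ ≤ δ / 2 := min_le_left _ _
      have h6 : |ρ' b - ρ b| ≤ |ρ' b - ρ₁ b| + |ρ₁ b - ρ b| := abs_sub_le _ _ _
      linarith
    have hval : ∀ ρ' : Fin r → ℝ, (∀ b, |ρ' b - ρ₁ b| ≤ δ₁) →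
        |∑ b, v b * ρ' b - ∑ b, v b * ρ₁ b| ≤ a / 2 := by
      intro ρ' h
      rw [← Finset.sum_sub_distrib]
      refine (Finset.abs_sum_le_sum_abs _ _).trans (le_trans ?_ hδA)
      rw [hA, Finset.sum_mul]
      refine Finset.sum_le_sum fun b _ => ?_
      rw [← mul_sub, abs_mul]
      exact mul_le_mul_of_nonneg_left (h b) (abs_nonneg _)
    refine ⟨ρ₁, δ₁, min κ (a / 2), hδ₁0, lt_min hκ (by positivity), fun ρ' h =>
      hU' ρ' (hnear ρ' h), fun w hw => ?_⟩
    rcases Finset.mem_insert.1 hw with rfl | hw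
    · rcases lt_or_gt_of_ne h2 with h3 | h3
      · right
        intro ρ' h
        have h4 := (abs_le.1 (hval ρ' h)).2
        have h5 : a = -∑ b, w b * ρ₁ b := abs_of_neg h3
        have h6 : min κ (a / 2) ≤ a / 2 := min_le_right _ _
        linarith
      · left
        intro ρ' h
        have h4 := (abs_le.1 (hval ρ' h)).1
        have h5 : a = ∑ b, w b * ρ₁ b := abs_of_pos h3
        have h6 : min κ (a / 2) ≤ a / 2 := min_le_right _ _
        linarith
    · rcases hD' w hw with h3 | h3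
      · left
        intro ρ' h
        exact (min_le_left _ _).trans (h3 ρ' (hnear ρ' h))
      · right
        intro ρ' h
        have h4 := h3 ρ' (hnear ρ' h)
        have h5 : min κ (a / 2) ≤ κ := min_le_left _ _
        linarith

theorem log_small (κ : ℝ) (hκ : 0 < κ) : ∃ R₀ : ℝ, 1 ≤ R₀ ∧ ∀ R, R₀ ≤ R →
    1 + Real.log R ≤ κ * R := by
  have h1 : Tendsto (fun R : ℝ => 1 / R + Real.log R / R) atTop (𝓝 (0 + 0)) := by
    apply Tendsto.add
    · exact tendsto_const_nhds.div_atTop tendsto_id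
    · exact Real.isLittleO_log_id_atTop.tendsto_div_nhds_zero
  rw [add_zero] at h1
  obtain ⟨R₁, h⟩ := eventually_atTop.1 (h1.eventually (gt_mem_nhds hκ))
  refine ⟨max R₁ 1, le_max_right _ _, fun R hR => ?_⟩
  have hR1 : 1 ≤ R := (le_max_right _ _).trans hR
  have h2 := h R ((le_max_left _ _).trans hR)
  rw [← add_div, div_lt_iff₀ (by linarith)] at h2
  exact h2.le

theorem t_DOM6 : S_DOM6 := by
  intro r S m₀ hm₀ C κ hκ
  classical
  set n : ℝ := (S.card : ℝ) + 1 with hn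
  have hn0 : 0 < n := by positivity
  have hlogn : 0 ≤ Real.log (2 * n) := by
    apply Real.log_nonneg
    have : (0 : ℝ) ≤ S.card := Nat.cast_nonneg _
    linarith
  set B : ℝ := 2 * |C| + Real.log (2 * n) + 1 with hB
  have hB0 : 0 < B := by positivity
  obtain ⟨R₀, hR₀1, hR₀⟩ := log_small (κ / B) (by positivity)
  refine ⟨|C| + 1, R₀, by positivity, hR₀1, ?_⟩
  intro R hR a Y hY hdom ha
  have hR1 : 1 ≤ R := hR₀1.trans hR
  have hlog : 0 ≤ Real.log R := Real.log_nonneg hR1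
  have hq : B * (1 + Real.log R) ≤ κ * R := by
    have h1 := hR₀ R hR
    rw [div_mul_eq_mul_div, le_div_iff₀ hB0] at h1
    linarith
  have hC : C * (1 + Real.log R) ≤ |C| * (1 + Real.log R) :=
    mul_le_mul_of_nonneg_right (le_abs_self C) (by linarith)
  have hYp : ∀ m : Fin r →₀ ℕ, 0 < ‖∏ b, Y b ^ m b‖ := fun m =>
    norm_pos_iff.2 (Finset.prod_ne_zero_iff.2 fun b _ => pow_ne_zero _ (hY b))
  have hYl : ∀ m : Fin r →₀ ℕ, Real.log ‖∏ b, Y b ^ m b‖ = ∑ b, (m b : ℝ) * Real.log ‖Y b‖ := by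
    intro m
    rw [norm_prod, Real.log_prod fun b _ => norm_ne_zero_iff.2 (pow_ne_zero _ (hY b))]
    refine Finset.sum_congr rfl fun b _ => ?_
    rw [norm_pow, Real.log_pow]
  set W : ℝ := ‖a m₀ * ∏ b, Y b ^ m₀ b‖ with hW
  have ha₀ := ha m₀ hm₀
  have hWpos : 0 < W := by
    rw [hW, norm_mul]
    exact mul_pos (norm_pos_iff.2 ha₀.1) (hYp m₀)
  have hWlog : Real.log W = Real.log ‖a m₀‖ + ∑ b, (m₀ b : ℝ) * Real.log ‖Y b‖ := by
    rw [hW, norm_mul, Real.log_mul (norm_ne_zero_iff.2 ha₀.1) (hYp m₀).ne', hYl]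
  have hl₀ := abs_le.1 ha₀.2
  have hterm : ∀ m ∈ S.erase m₀, ‖a m * ∏ b, Y b ^ m b‖ ≤ W / (2 * n) := by
    intro m hm
    rw [Finset.mem_erase] at hm
    have ham := ha m hm.2
    have hlm := abs_le.1 ham.2
    have hd := hdom m hm.2 hm.1
    have hd' : ∑ b, ((m₀ b : ℝ) - m b) * Real.log ‖Y b‖ =
        ∑ b, (m₀ b : ℝ) * Real.log ‖Y b‖ - ∑ b, (m b : ℝ) * Real.log ‖Y b‖ := by
      rw [← Finset.sum_sub_distrib]
      exact Finset.sum_congr rfl fun b _ => by ring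
    rw [hd'] at hd
    have hpos : 0 < ‖a m * ∏ b, Y b ^ m b‖ := by
      rw [norm_mul]
      exact mul_pos (norm_pos_iff.2 ham.1) (hYp m)
    rw [← Real.log_le_log_iff hpos (by positivity), Real.log_div hWpos.ne' (by positivity),
      norm_mul, Real.log_mul (norm_ne_zero_iff.2 ham.1) (hYp m).ne', hYl, hWlog]
    have h1 : Real.log (2 * n) ≤ Real.log (2 * n) * (1 + Real.log R) :=
      le_mul_of_one_le_right hlogn (by linarith)
    have h2 : B * (1 + Real.log R) = 2 * (|C| * (1 + Real.log R)) +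
        Real.log (2 * n) * (1 + Real.log R) + (1 + Real.log R) := by rw [hB]; ring
    linarith [hlm.2, hl₀.1]
  set T : ℂ := ∑ m ∈ S.erase m₀, a m * ∏ b, Y b ^ m b with hT
  have hTW : ‖T‖ ≤ W / 2 := by
    refine (norm_sum_le _ _).trans ((Finset.sum_le_card_nsmul _ _ _ hterm).trans ?_)
    rw [nsmul_eq_mul]
    have h1 : ((S.erase m₀).card : ℝ) ≤ n := by
      have := Finset.card_erase_le (s := S) (a := m₀)
      have h2 : ((S.erase m₀).card : ℝ) ≤ S.card := by exact_mod_cast this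
      linarith
    calc ((S.erase m₀).card : ℝ) * (W / (2 * n)) ≤ n * (W / (2 * n)) :=
          mul_le_mul_of_nonneg_right h1 (by positivity)
      _ = W / 2 := by field_simp
  have hS : ∑ m ∈ S, a m * ∏ b, Y b ^ m b = T + a m₀ * ∏ b, Y b ^ m₀ b := by
    rw [hT, Finset.sum_erase_add _ _ hm₀]
  have hlow : W / 2 ≤ ‖T + a m₀ * ∏ b, Y b ^ m₀ b‖ := by
    have h1 : ‖a m₀ * ∏ b, Y b ^ m₀ b‖ ≤ ‖T + a m₀ * ∏ b, Y b ^ m₀ b‖ + ‖T‖ := by
      have := norm_sub_le (T + a m₀ * ∏ b, Y b ^ m₀ b) T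
      rwa [add_sub_cancel_left] at this
    linarith
  have hup : ‖T + a m₀ * ∏ b, Y b ^ m₀ b‖ ≤ 2 * W := by
    have h1 := norm_add_le T (a m₀ * ∏ b, Y b ^ m₀ b)
    linarith
  rw [hS]
  have hpos : 0 < ‖T + a m₀ * ∏ b, Y b ^ m₀ b‖ := by linarith
  refine ⟨norm_pos_iff.1 hpos, ?_⟩
  have l1 : Real.log W - Real.log 2 ≤ Real.log ‖T + a m₀ * ∏ b, Y b ^ m₀ b‖ := by
    rw [← Real.log_div hWpos.ne' (by norm_num)]
    exact Real.log_le_log (by positivity) hlow
  have l2 : Real.log ‖T + a m₀ * ∏ b, Y b ^ m₀ b‖ ≤ Real.log 2 + Real.log W := by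
    rw [← Real.log_mul (by norm_num) hWpos.ne']
    exact Real.log_le_log hpos hup
  have l4 : Real.log 2 ≤ 1 := by
    have := Real.log_two_lt_d9
    linarith
  rw [hWlog] at l1 l2
  rw [abs_le]
  constructor <;> nlinarith [hl₀.1, hl₀.2]

theorem t_SOL6 : S_SOL4 → S_SOL6 := by
  intro hSOL s ε C hε
  obtain ⟨R₀, hR₀1, hR₀⟩ := hSOL s 0 (fun _ => by simp) ε C hε
  refine ⟨R₀, hR₀1, fun R hR μ hμ M hM hMre => ?_⟩
  have hsc : sc R (0 : Fin s → ℂ) = 0 := by
    funext i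
    simp [sc]
  have hmem : ∀ l : Fin s → ℂ, l ∈ ball (0 : Fin s → ℂ) (ε * R) → μ + l ∈ ball μ (ε * R) := by
    intro l hl
    rw [mem_ball, dist_eq_norm] at hl ⊢
    rwa [add_sub_cancel_left, ← sub_zero l]
  have h := hR₀ R hR (fun j l => M j (μ + l) - μ j)
  rw [hsc] at h
  have hd : Differentiable ℂ (fun l : Fin s → ℂ => μ + l) :=
    (differentiable_const μ).add differentiable_id
  obtain ⟨l, hl, hN⟩ := h (fun j => by
      have h1 : DifferentiableOn ℂ (fun l : Fin s → ℂ => M j (μ + l))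
          (ball (0 : Fin s → ℂ) (ε * R)) := (hM j).comp hd.differentiableOn hmem
      exact h1.sub_const (μ j))
    (fun j l hl => by
      rw [Complex.sub_re, hμ j, sub_zero]
      exact hMre j _ (hmem l hl))
  refine ⟨μ + l, hmem l hl, fun j => ?_⟩
  obtain ⟨N, hN⟩ := hN j
  refine ⟨N, ?_⟩
  rw [← hN, Pi.add_apply]
  ring

end Pool.Agent.K3h17.UG6
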